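import Pool.Agent.U133.GP.Ser

set_option autoImplicit false

/-!
# The square root of `1 - 2 m z + p z²`: values
-/

namespace Pool.Agent.U133.GP

open PowerSeries Finset

/-- the value of a power series -/
noncomputable def evs (A : ℝ⟦X⟧) (z : ℂ) : ℂ := ∑' k, ((coeff k A : ℝ) : ℂ) * z ^ k

/-- absolute convergence -/
def Abs (A : ℝ⟦X⟧) (z : ℂ) : Prop := Summable fun k => ‖((coeff k A : ℝ) : ℂ) * z ^ k‖

lemma evs_mul {A B : ℝ⟦X⟧} {z : ℂ} (hA : Abs A z) (hB : Abs B z) :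
    evs (A * B) z = evs A z * evs B z := by
  rw [evs, evs, evs, tsum_mul_tsum_eq_tsum_sum_antidiagonal_of_summable_norm hA hB]
  congr 1
  funext n
  rw [coeff_mul]
  push_cast
  rw [sum_mul]
  refine sum_congr rfl fun q hq => ?_
  rw [← mem_antidiagonal.mp hq, pow_add]
  ring

lemma evs_Qs (m p : ℝ) (z : ℂ) : evs (Qs m p) z = 1 - 2 * m * z + p * z ^ 2 := by
  have hc : ∀ k, coeff k (Qs m p) = if k = 0 then 1 else if k = 1 then -(2 * m) else
      if k = 2 then p else 0 := by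
    intro k
    rw [Qs]
    rcases k with _ | _ | _ | k
    · simp
    · rw [map_add, map_sub, coeff_C_mul, coeff_C_mul, coeff_one, coeff_one_X, coeff_succ_X_mul,
        coeff_zero_X]
      simp
    · rw [map_add, map_sub, coeff_C_mul, coeff_C_mul, coeff_one, coeff_X, coeff_succ_X_mul,
        coeff_one_X]
      simp
    · rw [map_add, map_sub, coeff_C_mul, coeff_C_mul, coeff_one, coeff_X, coeff_succ_X_mul,
        coeff_X]
      simp
  rw [evs, tsum_eq_sum (s := range 3)]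
  · rw [sum_range_succ, sum_range_succ, sum_range_succ, sum_range_zero, hc, hc, hc]
    simp
    ring
  · intro k hk
    rw [mem_range, not_lt] at hk
    rw [hc, if_neg (by omega), if_neg (by omega), if_neg (by omega)]
    simp

lemma abs_Es {m p : ℝ} (hm : 0 ≤ m) (hp0 : 0 ≤ p) (hp : p ≤ m ^ 2) {z : ℂ}
    (hz : 2 * m * ‖z‖ < 1) : Abs (Es m p) z := by
  rw [Abs, ← summable_nat_add_iff 2]
  have hg : Summable fun l : ℕ => (m ^ 2 - p) / 2 * ‖z‖ ^ 2 * (2 * m * ‖z‖) ^ l :=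
    (summable_geometric_of_lt_one (by positivity) hz).mul_left _
  refine Summable.of_nonneg_of_le (fun _ => norm_nonneg _) (fun l => ?_) hg
  rw [coeff_Es, norm_mul, norm_pow, Complex.norm_real, Real.norm_eq_abs]
  calc |ec m p (l + 2)| * ‖z‖ ^ (l + 2) ≤ (2 * m) ^ l * ((m ^ 2 - p) / 2) * ‖z‖ ^ (l + 2) :=
        mul_le_mul_of_nonneg_right (ec_upper hm hp0 hp l) (by positivity)
    _ = _ := by rw [mul_pow, pow_add]; ring

/-- the square root of `1 - u z` -/
noncomputable def gam (u : ℝ) (z : ℂ) : ℂ := evs (Es (u / 2) 0) z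

lemma abs_gam {u : ℝ} (hu : 0 ≤ u) {z : ℂ} (hz : u * ‖z‖ < 1) : Abs (Es (u / 2) 0) z :=
  abs_Es (by positivity) le_rfl (by positivity) (by rwa [show 2 * (u / 2) = u by ring])

lemma gam_sq {u : ℝ} (hu : 0 ≤ u) {z : ℂ} (hz : u * ‖z‖ < 1) : gam u z ^ 2 = 1 - u * z := by
  rw [gam, sq, ← evs_mul (abs_gam hu hz) (abs_gam hu hz), ← sq, Es_sq, evs_Qs]
  push_cast
  ring

lemma gam_mul {u v : ℝ} (hu : 0 ≤ u) (hv : 0 ≤ v) {z : ℂ} (hzu : u * ‖z‖ < 1)
    (hzv : v * ‖z‖ < 1) : gam u z * gam v z = evs (Es ((u + v) / 2) (u * v)) z := by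
  rw [gam, gam, ← evs_mul (abs_gam hu hzu) (abs_gam hv hzv), ← Es_mul]

/-- the size of the sum `∑ e_k r_k` -/
lemma sum_size {m p : ℝ} (hm : 0 ≤ m) (hp0 : 0 ≤ p) (hp : p ≤ m ^ 2) (n : ℕ) (r : ℕ → ℂ)
    (A : ℝ) (hA : 0 ≤ A) (hr0 : ∀ k < n + 2, r k = 0) (hr1 : ‖r (n + 2)‖ = 1)
    (hr : ∀ l, ‖r (n + 2 + l)‖ ≤ A ^ l) (hmA : 2 * m * A ≤ 1 / 3) :
    |ec m p (n + 2)| / 2 ≤ ‖∑' k, (ec m p k : ℂ) * r k‖ ∧
      ‖∑' k, (ec m p k : ℂ) * r k‖ ≤ 3 / 2 * |ec m p (n + 2)| := by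
  set g := |ec m p (n + 2)| with hg
  have hg0 : 0 ≤ g := abs_nonneg _
  set f : ℕ → ℂ := fun k => (ec m p k : ℂ) * r k with hf
  have hx0 : 0 ≤ 2 * m * A := by positivity
  have hx1 : 2 * m * A < 1 := by linarith
  have hb : ∀ l, ‖f (n + 2 + l)‖ ≤ g * (2 * m * A) ^ l := by
    intro l
    simp only [hf]
    rw [norm_mul, Complex.norm_real, Real.norm_eq_abs]
    calc |ec m p (n + 2 + l)| * ‖r (n + 2 + l)‖ ≤ ((2 * m) ^ l * g) * A ^ l :=
          mul_le_mul (ec_le hm hp0 hp n l) (hr l) (norm_nonneg _) (by positivity)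
      _ = _ := by rw [mul_pow (2 * m) A]; ring
  have hgeo : Summable fun l : ℕ => g * (2 * m * A) ^ l :=
    (summable_geometric_of_lt_one hx0 hx1).mul_left _
  have hs : Summable f := by
    rw [← summable_nat_add_iff (n + 2)]
    refine Summable.of_norm_bounded hgeo fun l => ?_
    rw [add_comm l (n + 2)]
    exact hb l
  have h1 : ∑' k, f k = ∑' l, f (l + (n + 2)) := by
    rw [← hs.sum_add_tsum_nat_add (n + 2)]
    have : ∑ i ∈ range (n + 2), f i = 0 := sum_eq_zero fun i hi => by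
      simp only [hf]
      rw [hr0 i (mem_range.mp hi), mul_zero]
    rw [this, zero_add]
  have hs2 : Summable fun l => f (l + (n + 2)) := (summable_nat_add_iff (n + 2)).mpr hs
  have h2 : ∑' l, f (l + (n + 2)) = f (n + 2) + ∑' l, f (l + 1 + (n + 2)) := by
    rw [hs2.tsum_eq_zero_add, zero_add]
  have h3 : ‖∑' l, f (l + 1 + (n + 2))‖ ≤ g / 2 := by
    have hgs : HasSum (fun l : ℕ => g * (2 * m * A) ^ (l + 1))
        (g * (2 * m * A) * (1 - 2 * m * A)⁻¹) := by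
      have := (hasSum_geometric_of_lt_one hx0 hx1).mul_left (g * (2 * m * A))
      refine this.congr_fun ?_
      intro l
      rw [pow_succ]; ring
    refine (tsum_of_norm_bounded hgs fun l => ?_).trans ?_
    · rw [show l + 1 + (n + 2) = n + 2 + (l + 1) by ring]
      exact hb (l + 1)
    · rw [← div_eq_mul_inv, div_le_iff₀ (by linarith)]
      nlinarith
  have h4 : ‖f (n + 2)‖ = g := by
    simp only [hf]
    rw [norm_mul, hr1, mul_one, Complex.norm_real, Real.norm_eq_abs]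
  have h5 : ∑' k, (ec m p k : ℂ) * r k = f (n + 2) + ∑' l, f (l + 1 + (n + 2)) := by
    rw [← h2, ← h1]
  rw [h5]
  constructor
  · have h6 : ‖f (n + 2)‖ - ‖∑' l, f (l + 1 + (n + 2))‖ ≤
        ‖f (n + 2) + ∑' l, f (l + 1 + (n + 2))‖ := by
      have := norm_sub_norm_le (f (n + 2)) (-∑' l, f (l + 1 + (n + 2)))
      rwa [norm_neg, sub_neg_eq_add] at this
    linarith
  · refine (norm_add_le _ _).trans ?_
    linarith

end Pool.Agent.U133.GP
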