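import Pool.Agent.U133.GP.Rec

set_option autoImplicit false

/-!
# Integrality
-/

namespace Pool.Agent.U133.GP

open Polynomial Finset

/-- the complex roots -/
noncomputable def Rt (f : ℤ[X]) : Finset ℂ := (f.map (Int.castRingHom ℂ)).roots.toFinset

lemma map_eq (f : ℤ[X]) : (f.map (Int.castRingHom ℚ)).map (algebraMap ℚ ℂ) =
    f.map (Int.castRingHom ℂ) := by
  rw [Polynomial.map_map]
  congr 1

section

variable {f : ℤ[X]} (hf : f ≠ 0) (hs : (f.map (Int.castRingHom ℚ)).Separable)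

include hf in
lemma mapC_ne : f.map (Int.castRingHom ℂ) ≠ 0 :=
  (Polynomial.map_ne_zero_iff (RingHom.injective_int _)).mpr hf

include hf in
lemma mem_Rt {θ : ℂ} : θ ∈ Rt f ↔ aeval θ f = 0 := by
  rw [Rt, Multiset.mem_toFinset, mem_roots (mapC_ne hf), IsRoot, eval_map, aeval_def]
  rfl

include hs in
lemma nodup : (f.map (Int.castRingHom ℂ)).roots.Nodup := by
  rw [← map_eq]
  exact nodup_roots (hs.map)

include hs in
lemma card_Rt : (Rt f).card = f.natDegree := by
  rw [Rt, Multiset.toFinset_card_of_nodup (nodup hs)]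
  rw [splits_iff_card_roots.mp (IsAlgClosed.splits _)]
  exact natDegree_map_eq_of_injective (RingHom.injective_int _) f

include hs in
lemma prod_Rt : f.map (Int.castRingHom ℂ) = C (f.leadingCoeff : ℂ) * ∏ θ ∈ Rt f, (X - C θ) := by
  have h := (IsAlgClosed.splits (f.map (Int.castRingHom ℂ))).eq_prod_roots
  rw [h]
  congr 1
  · rw [leadingCoeff_map_of_injective (RingHom.injective_int _)]; simp
  · rw [Finset.prod_multiset_map_count]
    refine prod_congr rfl fun θ hθ => ?_
    rw [Multiset.count_eq_one_of_mem (nodup hs) (Multiset.mem_toFinset.mp hθ), pow_one]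

include hs in
/-- the equation of the roots -/
lemma eqn_Rt (hf : f ≠ 0) (H : ℕ) (hH : ∀ i, |f.coeff i| ≤ H) :
    Eqn (Rt f) (fun j => (f.coeff j : ℂ) / f.leadingCoeff) H := by
  have hl : f.leadingCoeff ≠ 0 := leadingCoeff_ne_zero.mpr hf
  have hlC : (f.leadingCoeff : ℂ) ≠ 0 := by exact_mod_cast hl
  constructor
  · intro θ hθ
    have h1 := (mem_Rt hf).mp hθ
    rw [aeval_eq_sum_range, sum_range_succ] at h1
    simp only [zsmul_eq_mul] at h1
    rw [card_Rt hs]
    have h2 : (f.leadingCoeff : ℂ) * θ ^ f.natDegree =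
        -∑ j ∈ range f.natDegree, (f.coeff j : ℂ) * θ ^ j := by
      rw [eq_neg_iff_add_eq_zero, add_comm]
      exact h1
    have h3 : θ ^ f.natDegree = (f.leadingCoeff : ℂ)⁻¹ * ((f.leadingCoeff : ℂ) * θ ^ f.natDegree) := by
      field_simp
    rw [h3, h2, mul_neg, mul_sum]
    congr 1
    refine sum_congr rfl fun j _ => ?_
    field_simp
  · intro j
    rw [norm_div, Complex.norm_intCast, Complex.norm_intCast]
    have h1 : (1 : ℝ) ≤ |(f.leadingCoeff : ℝ)| := by
      have := Int.one_le_abs hl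
      have h' : ((1 : ℤ) : ℝ) ≤ ((|f.leadingCoeff| : ℤ) : ℝ) := by exact_mod_cast this
      rwa [Int.cast_one, Int.cast_abs] at h'
    have h2 : |(f.coeff j : ℝ)| ≤ H := by
      have h' : ((|f.coeff j| : ℤ) : ℝ) ≤ ((H : ℤ) : ℝ) := by exact_mod_cast hH j
      rwa [Int.cast_abs, Int.cast_natCast] at h'
    rw [div_le_iff₀ (by linarith)]
    nlinarith [abs_nonneg (f.coeff j : ℝ), (Nat.cast_nonneg H : (0 : ℝ) ≤ H)]

include hs in
lemma deriv_Rt {θ : ℂ} (hθ : θ ∈ Rt f) :
    aeval θ (derivative f) = f.leadingCoeff * Wt (Rt f) θ := by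
  have h1 : aeval θ (derivative f) = (derivative (f.map (Int.castRingHom ℂ))).eval θ := by
    rw [derivative_map, eval_map, aeval_def]; rfl
  rw [h1, prod_Rt hs, derivative_C_mul, eval_mul, eval_C]
  congr 1
  have h2 := Lagrange.eval_nodal_derivative_eval_node_eq (s := Rt f) (v := id) hθ
  rw [Lagrange.nodal_eq, Lagrange.eval_nodal] at h2
  simpa [Wt] using h2

/-- bound for the resultant of `f` and `f'` -/
lemma res_bound (f : ℤ[X]) (H : ℕ) (hH : ∀ i, |f.coeff i| ≤ H) (hd : 1 ≤ f.natDegree) :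
    |resultant f (derivative f) f.natDegree (f.natDegree - 1)| ≤
      ((2 * f.natDegree).factorial : ℤ) * ((f.natDegree : ℤ) * (H + 1)) ^ (2 * f.natDegree) := by
  set d := f.natDegree with hdd
  have hd' : (1 : ℤ) ≤ d := by exact_mod_cast hd
  have hx1 : (1 : ℤ) ≤ (d : ℤ) * (H + 1) := by nlinarith [(Nat.cast_nonneg H : (0 : ℤ) ≤ H)]
  have h1 := Matrix.det_le (A := sylvester f (derivative f) d (d - 1)) (abv := AbsoluteValue.abs)
    (x := (d : ℤ) * (H + 1)) (by
      intro i j
      rw [AbsoluteValue.abs_apply]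
      have hc : ∀ k, |(derivative f).coeff k| ≤ (d : ℤ) * (H + 1) := by
        intro k
        rw [coeff_derivative]
        by_cases hk : k + 1 ≤ d
        · rw [abs_mul]
          have e1 : |((k : ℤ) + 1)| ≤ d := by
            rw [abs_of_nonneg (by positivity)]; exact_mod_cast hk
          have e2 := hH (k + 1)
          calc |f.coeff (k + 1)| * |((k : ℤ) + 1)| ≤ (H : ℤ) * d :=
                mul_le_mul e2 e1 (abs_nonneg _) (Nat.cast_nonneg _)
            _ ≤ _ := by nlinarith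
        · rw [coeff_eq_zero_of_natDegree_lt (by omega), zero_mul, abs_zero]
          positivity
      have hc2 : ∀ k, |f.coeff k| ≤ (d : ℤ) * (H + 1) := by
        intro k
        have e2 := hH k
        nlinarith [(Nat.cast_nonneg H : (0 : ℤ) ≤ H)]
      rw [sylvester, Matrix.of_apply]
      induction j using Fin.addCases with
      | left j =>
        rw [Fin.addCases_left]
        split_ifs
        · exact hc _
        · rw [abs_zero]; positivity
      | right j =>
        rw [Fin.addCases_right]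
        split_ifs
        · exact hc2 _
        · rw [abs_zero]; positivity)
  rw [AbsoluteValue.abs_apply, Fintype.card_fin, nsmul_eq_mul] at h1
  rw [resultant]
  refine h1.trans ?_
  have h2 : ((d + (d - 1)).factorial : ℤ) ≤ ((2 * d).factorial : ℤ) := by
    exact_mod_cast Nat.factorial_le (by omega)
  have h3 : ((d : ℤ) * (H + 1)) ^ (d + (d - 1)) ≤ ((d : ℤ) * (H + 1)) ^ (2 * d) :=
    pow_le_pow_right₀ hx1 (by omega)
  exact mul_le_mul h2 h3 (by positivity) (by positivity)

include hs in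
lemma res_ne (hd : 1 ≤ f.natDegree) :
    resultant f (derivative f) f.natDegree (f.natDegree - 1) ≠ 0 := by
  intro h0
  have h1 := resultant_map_map (f := f) (g := derivative f) (m := f.natDegree)
    (n := f.natDegree - 1) (Int.castRingHom ℚ)
  rw [h0, map_zero] at h1
  have hdf : (f.map (Int.castRingHom ℚ)).natDegree = f.natDegree :=
    natDegree_map_eq_of_injective (RingHom.injective_int _) f
  have hdd : (derivative (f.map (Int.castRingHom ℚ))).natDegree = f.natDegree - 1 := by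
    rw [natDegree_derivative, hdf]
  have h2 : resultant (f.map (Int.castRingHom ℚ)) (derivative (f.map (Int.castRingHom ℚ))) ≠ 0 :=
    resultant_ne_zero _ _ hs
  apply h2
  rw [hdd, hdf, derivative_map]
  exact h1

include hs in
/-- `D a^(d-1) / W` is integral -/
lemma int_W (hf : f ≠ 0) (hd : 1 ≤ f.natDegree) {θ : ℂ} (hθ : θ ∈ Rt f) : IsIntegral ℤ
    (((resultant f (derivative f) f.natDegree (f.natDegree - 1) : ℤ) : ℂ) *
      (f.leadingCoeff : ℂ) ^ (f.natDegree - 1) / Wt (Rt f) θ) := by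
  set d := f.natDegree with hdd
  set D := resultant f (derivative f) d (d - 1) with hD
  obtain ⟨p, q, hp, hq, hpq⟩ := exists_mul_add_mul_eq_C_resultant (m := d) (n := d - 1) f
    (derivative f) le_rfl (by rw [natDegree_derivative]) (Or.inl (by omega))
  rw [← hD] at hpq
  have hl : f.leadingCoeff ≠ 0 := leadingCoeff_ne_zero.mpr hf
  have hlC : (f.leadingCoeff : ℂ) ≠ 0 := by exact_mod_cast hl
  have h1 : aeval θ (derivative f) * aeval θ q = (D : ℂ) := by
    have h := congrArg (fun P : ℤ[X] => aeval θ P) hpq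
    simp only [map_add, map_mul, (mem_Rt hf).mp hθ, zero_mul, zero_add, aeval_C] at h
    simpa using h
  rw [deriv_Rt hs hθ] at h1
  have hW : Wt (Rt f) θ ≠ 0 := Wt_ne θ
  have e : (D : ℂ) * (f.leadingCoeff : ℂ) ^ (d - 1) / Wt (Rt f) θ =
      (f.leadingCoeff : ℂ) * ((f.leadingCoeff : ℂ) ^ (d - 1) * aeval θ q) := by
    rw [← h1]; field_simp
  rw [e]
  have hint : IsIntegral ℤ ((f.leadingCoeff : ℂ) * θ) := by
    have := isIntegral_leadingCoeff_smul f θ ((mem_Rt hf).mp hθ)
    rwa [zsmul_eq_mul] at this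
  have hqd : q.natDegree ≤ d - 1 := by
    by_cases hq0 : q = 0
    · rw [hq0, natDegree_zero]; omega
    · have := (natDegree_lt_iff_degree_lt hq0).mpr hq
      omega
  have hlI : IsIntegral ℤ (f.leadingCoeff : ℂ) := by
    have := isIntegral_algebraMap (R := ℤ) (A := ℂ) (x := f.leadingCoeff)
    simpa using this
  have h2 : (f.leadingCoeff : ℂ) ^ (d - 1) * aeval θ q =
      ∑ k ∈ range (q.natDegree + 1), (q.coeff k : ℂ) * ((f.leadingCoeff : ℂ) ^ (d - 1 - k) *
        ((f.leadingCoeff : ℂ) * θ) ^ k) := by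
    rw [aeval_eq_sum_range, mul_sum]
    refine sum_congr rfl fun k hk => ?_
    have hk' : k ≤ d - 1 := by
      have := mem_range.mp hk
      omega
    rw [zsmul_eq_mul, mul_pow]
    have e2 : (f.leadingCoeff : ℂ) ^ (d - 1) = (f.leadingCoeff : ℂ) ^ (d - 1 - k) *
        (f.leadingCoeff : ℂ) ^ k := by
      rw [← pow_add]; congr 1; omega
    rw [e2]; ring
  refine hlI.mul ?_
  rw [h2]
  refine IsIntegral.sum _ fun k _ => ?_
  have hc : IsIntegral ℤ (q.coeff k : ℂ) := by
    have := isIntegral_algebraMap (R := ℤ) (A := ℂ) (x := q.coeff k)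
    simpa using this
  exact hc.mul ((hlI.pow _).mul (hint.pow _))

include hs in
/-- **Small implies zero.** -/
lemma zero_of_small (hf : f ≠ 0) (hd : 1 ≤ f.natDegree) (x y : ℤ) (β : ℂ → ℂ)
    (hβ : ∀ θ ∈ Rt f, β θ ^ 2 = (x - θ) * (y - θ))
    (hrat : ∃ q : ℚ, (∑ θ ∈ Rt f, β θ / Wt (Rt f) θ) ^ 2 = (q : ℂ))
    (hsmall : (|((resultant f (derivative f) f.natDegree (f.natDegree - 1) : ℤ) : ℝ)| *
      |(f.leadingCoeff : ℝ)| ^ f.natDegree * ‖∑ θ ∈ Rt f, β θ / Wt (Rt f) θ‖) ^ 2 < 1) :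
    ∑ θ ∈ Rt f, β θ / Wt (Rt f) θ = 0 := by
  set d := f.natDegree with hdd
  set D := resultant f (derivative f) d (d - 1) with hD
  set T := ∑ θ ∈ Rt f, β θ / Wt (Rt f) θ with hT
  have hl : f.leadingCoeff ≠ 0 := leadingCoeff_ne_zero.mpr hf
  have hlC : (f.leadingCoeff : ℂ) ≠ 0 := by exact_mod_cast hl
  have hlI : IsIntegral ℤ (f.leadingCoeff : ℂ) := by
    have := isIntegral_algebraMap (R := ℤ) (A := ℂ) (x := f.leadingCoeff)
    simpa using this
  have hZI : IsIntegral ℤ ((D : ℂ) * (f.leadingCoeff : ℂ) ^ d * T) := by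
    have e : (D : ℂ) * (f.leadingCoeff : ℂ) ^ d * T = ∑ θ ∈ Rt f,
        ((D : ℂ) * (f.leadingCoeff : ℂ) ^ (d - 1) / Wt (Rt f) θ) *
          ((f.leadingCoeff : ℂ) * β θ) := by
      rw [hT, mul_sum]
      refine sum_congr rfl fun θ _ => ?_
      have e2 : (f.leadingCoeff : ℂ) ^ d = (f.leadingCoeff : ℂ) ^ (d - 1) * f.leadingCoeff := by
        rw [← pow_succ]; congr 1; omega
      rw [e2]; ring
    rw [e]
    refine IsIntegral.sum _ fun θ hθ => (int_W hs hf hd hθ).mul ?_
    have hint : IsIntegral ℤ ((f.leadingCoeff : ℂ) * θ) := by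
      have := isIntegral_leadingCoeff_smul f θ ((mem_Rt hf).mp hθ)
      rwa [zsmul_eq_mul] at this
    have hx : ∀ z : ℤ, IsIntegral ℤ (z : ℂ) := fun z => by
      have := isIntegral_algebraMap (R := ℤ) (A := ℂ) (x := z)
      simpa using this
    apply IsIntegral.of_pow (n := 2) (by norm_num)
    rw [mul_pow, hβ θ hθ]
    have e3 : (f.leadingCoeff : ℂ) ^ 2 * ((x - θ) * (y - θ)) =
        ((f.leadingCoeff : ℂ) * x - (f.leadingCoeff : ℂ) * θ) *
          ((f.leadingCoeff : ℂ) * y - (f.leadingCoeff : ℂ) * θ) := by ring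
    rw [e3]
    exact ((hlI.mul (hx x)).sub hint).mul ((hlI.mul (hx y)).sub hint)
  obtain ⟨q, hq⟩ := hrat
  set w : ℚ := (D : ℚ) ^ 2 * ((f.leadingCoeff : ℚ) ^ d) ^ 2 * q with hw
  have hwC : (w : ℂ) = ((D : ℂ) * (f.leadingCoeff : ℂ) ^ d * T) ^ 2 := by
    rw [hw, mul_pow, mul_pow, hq]; push_cast; ring
  have hwI : IsIntegral ℤ w := by
    have h1 : IsIntegral ℤ (algebraMap ℚ ℂ w) := by
      rw [eq_ratCast, hwC]; exact hZI.pow 2
    exact (isIntegral_algebraMap_iff (algebraMap ℚ ℂ).injective).mp h1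
  obtain ⟨z, hz⟩ := IsIntegrallyClosed.isIntegral_iff.mp hwI
  have hz' : (z : ℚ) = w := by simpa using hz
  have hznorm : |(z : ℝ)| < 1 := by
    have h1 : ((z : ℚ) : ℂ) = (w : ℂ) := by rw [hz']
    rw [hwC] at h1
    have h2 := congrArg norm h1
    rw [norm_pow, norm_mul, norm_mul, norm_pow, Complex.norm_intCast, Complex.norm_intCast] at h2
    push_cast at h2
    rw [Complex.norm_intCast] at h2
    rw [h2]
    exact hsmall
  have hz0 : z = 0 := by
    have h1 : |z| < 1 := by
      have : ((|z| : ℤ) : ℝ) < ((1 : ℤ) : ℝ) := by push_cast; exact hznorm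
      exact_mod_cast this
    exact Int.abs_lt_one_iff.mp h1
  have hD0 : (D : ℂ) ≠ 0 := by exact_mod_cast (res_ne hs hd)
  have h3 : ((D : ℂ) * (f.leadingCoeff : ℂ) ^ d * T) ^ 2 = 0 := by
    rw [← hwC, ← hz', hz0]; simp
  have h4 := pow_eq_zero_iff (two_ne_zero) |>.mp h3
  rcases mul_eq_zero.mp h4 with h5 | h5
  · rcases mul_eq_zero.mp h5 with h6 | h6
    · exact absurd h6 hD0
    · exact absurd h6 (pow_ne_zero _ hlC)
  · exact h5

end

end Pool.Agent.U133.GP
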