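import Pool.Agent.U133.GP.Pair

set_option autoImplicit false

/-!
# The gap principle
-/

namespace Pool.Agent.U133.GP

open Polynomial Finset

/-- `x` and `y` are in the same class of the descent map: `b (x - T) (y - T)` is a square modulo
`f(T)` for some non-zero rational number `b` -/
def SameClass (f : ℤ[X]) (x y : ℤ) : Prop :=
  ∃ b : ℚ, b ≠ 0 ∧ ∃ B : ℚ[X],
    f.map (Int.castRingHom ℚ) ∣ B ^ 2 - C b * ((C (x : ℚ) - X) * (C (y : ℚ) - X))

lemma SameClass.eval {f : ℤ[X]} (hf : f ≠ 0) {x y : ℤ} {b : ℚ} {B : ℚ[X]}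
    (h : f.map (Int.castRingHom ℚ) ∣ B ^ 2 - C b * ((C (x : ℚ) - X) * (C (y : ℚ) - X)))
    {θ : ℂ} (hθ : θ ∈ Rt f) : aeval θ B ^ 2 = b * ((x - θ) * (y - θ)) := by
  obtain ⟨Q, hQ⟩ := h
  have h0 : aeval θ (f.map (Int.castRingHom ℚ)) = 0 := by
    rw [← (mem_Rt hf).mp hθ, aeval_def, aeval_def, eval₂_map]
    congr 1
  have h1 := congrArg (fun P : ℚ[X] => aeval θ P) hQ
  simp only [map_sub, map_mul, map_pow, aeval_C, aeval_X, h0, zero_mul] at h1
  rw [sub_eq_zero] at h1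
  simpa using h1

/-- the divided difference has a rational square -/
lemma rat_T {f : ℤ[X]} (hf : f ≠ 0) (hs : (f.map (Int.castRingHom ℚ)).Separable)
    (hd : 1 ≤ f.natDegree) (P : ℚ[X]) (x₀ : ℤ) (hx₀ : f.eval x₀ ≠ 0) (g : ℂ → ℂ) (c : ℂ)
    (q₁ : ℚ) (hq₁ : q₁ ≠ 0) (hc : c ^ 2 = q₁)
    (h : ∀ θ ∈ Rt f, aeval θ P = c * ((x₀ - θ) * g θ)) :
    ∃ q : ℚ, (∑ θ ∈ Rt f, g θ / Wt (Rt f) θ) ^ 2 = (q : ℂ) := by
  set F := f.map (Int.castRingHom ℚ) with hF
  have hF0 : F ≠ 0 := (Polynomial.map_ne_zero_iff (RingHom.injective_int _)).mpr hf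
  have hFx : F.eval (x₀ : ℚ) ≠ 0 := by
    have : F.eval (x₀ : ℚ) = ((f.eval x₀ : ℤ) : ℚ) := by
      have := eval_intCast_map (Int.castRingHom ℚ) f x₀
      rw [hF]
      simpa using this
    rw [this]
    exact_mod_cast hx₀
  have hFθ : ∀ θ ∈ Rt f, aeval θ F = 0 := by
    intro θ hθ
    rw [← (mem_Rt hf).mp hθ, aeval_def, aeval_def, hF, eval₂_map]
    congr 1
  set Q := F /ₘ (X - C (x₀ : ℚ)) with hQ
  have hdiv : F = C (F.eval (x₀ : ℚ)) + (X - C (x₀ : ℚ)) * Q := by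
    rw [← modByMonic_X_sub_C_eq_C_eval, hQ, modByMonic_add_div]
  have hN : ∀ θ ∈ Rt f, aeval θ (C (F.eval (x₀ : ℚ))⁻¹ * Q) * (x₀ - θ) = 1 := by
    intro θ hθ
    have h1 := hFθ θ hθ
    rw [hdiv] at h1
    simp only [map_add, map_mul, map_sub, aeval_C, aeval_X] at h1
    have h2 : ((F.eval (x₀ : ℚ) : ℚ) : ℂ) ≠ 0 := by exact_mod_cast hFx
    simp only [eq_ratCast, Rat.cast_intCast] at h1
    rw [map_mul, aeval_C, eq_ratCast, Rat.cast_inv]
    have h3 : aeval θ Q * (x₀ - θ) = ((F.eval (x₀ : ℚ) : ℚ) : ℂ) := by linear_combination -h1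
    rw [mul_assoc, h3, inv_mul_cancel₀ h2]
  set G := (P * (C (F.eval (x₀ : ℚ))⁻¹ * Q)) % F with hG
  have hGθ : ∀ θ ∈ Rt f, aeval θ G = c * g θ := by
    intro θ hθ
    have h1 : G = P * (C (F.eval (x₀ : ℚ))⁻¹ * Q) -
        F * ((P * (C (F.eval (x₀ : ℚ))⁻¹ * Q)) / F) := by
      rw [hG, EuclideanDomain.mod_eq_sub_mul_div]
    rw [h1, map_sub, map_mul (aeval θ) P, map_mul (aeval θ) F, hFθ θ hθ, zero_mul, sub_zero,
      h θ hθ]
    linear_combination (c * g θ) * hN θ hθ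
  have hcard : (Rt f).card = f.natDegree := card_Rt hs
  have hFd : F.natDegree = f.natDegree := natDegree_map_eq_of_injective (RingHom.injective_int _) f
  have hdeg : (G.map (algebraMap ℚ ℂ)).degree < (Rt f).card := by
    rw [degree_map]
    refine (EuclideanDomain.mod_lt _ hF0).trans_le ?_
    rw [hcard, ← hFd]
    exact degree_le_natDegree
  have hco := coeff_eq (G.map (algebraMap ℚ ℂ)) hdeg
  rw [coeff_map] at hco
  have hsum : ∑ θ ∈ Rt f, (G.map (algebraMap ℚ ℂ)).eval θ / Wt (Rt f) θ =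
      c * ∑ θ ∈ Rt f, g θ / Wt (Rt f) θ := by
    rw [mul_sum]
    refine sum_congr rfl fun θ hθ => ?_
    rw [eval_map, ← aeval_def, hGθ θ hθ, mul_div_assoc]
  rw [hsum, eq_ratCast] at hco
  refine ⟨(G.coeff ((Rt f).card - 1)) ^ 2 / q₁, ?_⟩
  push_cast
  have hqC : (q₁ : ℂ) ≠ 0 := by exact_mod_cast hq₁
  rw [hco, mul_pow, hc]
  field_simp

/-- two integers with the same signs -/
lemma contra {f : ℤ[X]} (hf : f ≠ 0) (hs : (f.map (Int.castRingHom ℚ)).Separable)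
    (hd : 3 ≤ f.natDegree) (H : ℕ) (hH : 1 ≤ H) (hfH : ∀ i, |f.coeff i| ≤ H)
    (x y : ℤ) (σ a b : ℝ) (hσ : σ ^ 2 = 1) (hx : (x : ℝ) = σ * a) (hy : (y : ℝ) = σ * b)
    (ha : 1 < a) (hab : a < b) (h6 : 6 * f.natDegree * H * (1 / a) ≤ 1)
    (hnum : ∀ D l t : ℝ, |D| ≤ ((2 * f.natDegree).factorial : ℝ) *
        ((f.natDegree : ℝ) * (H + 1)) ^ (2 * f.natDegree) → |l| ≤ H → 0 ≤ t →
        t ≤ 2 ^ f.natDegree * (1 / a) ^ (f.natDegree - 1) →
        (|D| * |l| ^ f.natDegree * (Real.sqrt (a * b) * t)) ^ 2 < 1)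
    (hrat : ∃ q : ℚ, (∑ θ ∈ Rt f, gam (1 / a) (σ * θ) * gam (1 / b) (σ * θ) / Wt (Rt f) θ) ^ 2 =
      (q : ℂ)) : False := by
  have ha0 : 0 < a := by linarith
  have hb0 : 0 < b := by linarith
  have hH1 : (1 : ℝ) ≤ H := by exact_mod_cast hH
  have hcard : (Rt f).card = f.natDegree := card_Rt hs
  have hE := eqn_Rt hs hf H hfH
  have hσn : ‖(σ : ℂ)‖ = 1 := by
    rw [Complex.norm_real, Real.norm_eq_abs]
    exact (pow_eq_one_iff_of_nonneg (abs_nonneg σ) two_ne_zero).mp (by rw [sq_abs, hσ])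
  have hv : 0 < 1 / b := by positivity
  have huv : 1 / b < 1 / a := one_div_lt_one_div_of_lt ha0 hab
  obtain ⟨hT0, hTle⟩ := pair (Rt f) (by rw [hcard]; exact hd) hH1 hE (σ : ℂ) hσn (1 / a) (1 / b)
    hv huv (by rw [hcard]; exact h6)
  set T := ∑ θ ∈ Rt f, gam (1 / a) (σ * θ) * gam (1 / b) (σ * θ) / Wt (Rt f) θ with hT
  rw [hcard] at hTle
  set s := Real.sqrt (a * b) with hsdef
  have hs0 : 0 < s := Real.sqrt_pos.mpr (by positivity)
  have hs2 : s ^ 2 = a * b := Real.sq_sqrt (by positivity)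
  have hroot : ∀ θ ∈ Rt f, 1 / a * ‖(σ : ℂ) * θ‖ < 1 := by
    intro θ hθ
    have h1 := root_bound hH1 hE hθ
    rw [hcard] at h1
    rw [norm_mul, hσn, one_mul]
    have h2 : 1 / a * ‖θ‖ ≤ 1 / a * (f.natDegree * H) :=
      mul_le_mul_of_nonneg_left h1 (by positivity)
    nlinarith
  have hsum : ∑ θ ∈ Rt f, (s * (gam (1 / a) (σ * θ) * gam (1 / b) (σ * θ))) / Wt (Rt f) θ =
      s * T := by
    rw [hT, mul_sum]
    refine sum_congr rfl fun θ _ => ?_
    rw [mul_div_assoc]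
  have hz := zero_of_small hs hf (by omega) x y
    (fun θ => (s : ℂ) * (gam (1 / a) (σ * θ) * gam (1 / b) (σ * θ))) ?_ ?_ ?_
  · rw [hsum] at hz
    rcases mul_eq_zero.mp hz with h1 | h1
    · exact hs0.ne' (by exact_mod_cast h1)
    · exact hT0 h1
  · intro θ hθ
    have h1 := hroot θ hθ
    have h2 : 1 / b * ‖(σ : ℂ) * θ‖ < 1 :=
      (mul_le_mul_of_nonneg_right huv.le (norm_nonneg _)).trans_lt h1
    have hsC : (s : ℂ) ^ 2 = a * b := by exact_mod_cast hs2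
    have hσC : (σ : ℂ) ^ 2 = 1 := by exact_mod_cast hσ
    have hxC : (x : ℂ) = σ * a := by exact_mod_cast hx
    have hyC : (y : ℂ) = σ * b := by exact_mod_cast hy
    have haC : (a : ℂ) ≠ 0 := by exact_mod_cast ha0.ne'
    have hbC : (b : ℂ) ≠ 0 := by exact_mod_cast hb0.ne'
    rw [mul_pow, mul_pow, gam_sq (by positivity) h1, gam_sq (by positivity) h2, hsC, hxC, hyC]
    push_cast
    have e1 : (a : ℂ) * (1 - 1 / a * (σ * θ)) = a - σ * θ := by field_simp
    have e2 : (b : ℂ) * (1 - 1 / b * (σ * θ)) = b - σ * θ := by field_simp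
    calc (a : ℂ) * b * ((1 - 1 / a * (σ * θ)) * (1 - 1 / b * (σ * θ)))
        = (a * (1 - 1 / a * (σ * θ))) * (b * (1 - 1 / b * (σ * θ))) := by ring
      _ = (a - σ * θ) * (b - σ * θ) := by rw [e1, e2]
      _ = (σ * a - θ) * (σ * b - θ) := by linear_combination (-(a : ℂ) * b + θ ^ 2) * hσC
  · obtain ⟨q, hq⟩ := hrat
    refine ⟨(x : ℚ) * y * q, ?_⟩
    rw [hsum, mul_pow, hq]
    have hsC : (s : ℂ) ^ 2 = a * b := by exact_mod_cast hs2
    have hxy : (x : ℂ) * y = a * b := by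
      have hxC : (x : ℂ) = σ * a := by exact_mod_cast hx
      have hyC : (y : ℂ) = σ * b := by exact_mod_cast hy
      have hσC : (σ : ℂ) ^ 2 = 1 := by exact_mod_cast hσ
      rw [hxC, hyC]
      linear_combination (a : ℂ) * b * hσC
    rw [hsC, ← hxy]
    push_cast
    ring
  · rw [hsum, norm_mul, Complex.norm_real, Real.norm_eq_abs, abs_of_pos hs0]
    apply hnum _ _ _ _ _ (norm_nonneg _) hTle
    · have h1 := res_bound f H hfH (by omega)
      have h2 : ((|resultant f (derivative f) f.natDegree (f.natDegree - 1)| : ℤ) : ℝ) ≤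
          ((((2 * f.natDegree).factorial : ℤ) *
            ((f.natDegree : ℤ) * (H + 1)) ^ (2 * f.natDegree) : ℤ) : ℝ) := by exact_mod_cast h1
      rw [Int.cast_abs] at h2
      push_cast at h2
      push_cast
      exact h2
    · have h' : ((|f.leadingCoeff| : ℤ) : ℝ) ≤ ((H : ℤ) : ℝ) := by
        exact_mod_cast hfH f.natDegree
      rwa [Int.cast_abs, Int.cast_natCast] at h'

/-- the sign of an integer -/
noncomputable def sgr (x : ℤ) : ℝ := if 0 < x then 1 else -1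

lemma sgr_sq (x : ℤ) : sgr x ^ 2 = 1 := by
  rw [sgr]; split_ifs <;> norm_num

lemma sgr_mul (x : ℤ) : (x : ℝ) = sgr x * |(x : ℝ)| := by
  rw [sgr]
  split_ifs with h
  · rw [abs_of_pos (by exact_mod_cast h), one_mul]
  · have : (x : ℝ) ≤ 0 := by exact_mod_cast (not_lt.mp h)
    rw [abs_of_nonpos this]; ring

/-- the local square root of `1 - θ / x` -/
noncomputable def gx (x : ℤ) (θ : ℂ) : ℂ := gam (1 / |(x : ℝ)|) (sgr x * θ)

lemma gx_sq {x : ℤ} {θ : ℂ} (h : ‖θ‖ < |(x : ℝ)|) : (x : ℂ) * gx x θ ^ 2 = x - θ := by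
  have h0 : 0 < |(x : ℝ)| := (norm_nonneg _).trans_lt h
  have hn : ‖(sgr x : ℂ)‖ = 1 := by
    rw [Complex.norm_real, Real.norm_eq_abs]
    exact (pow_eq_one_iff_of_nonneg (abs_nonneg _) two_ne_zero).mp (by rw [sq_abs, sgr_sq])
  rw [gx, gam_sq (by positivity) (by
    rw [norm_mul, hn, one_mul, one_div, inv_mul_lt_iff₀ h0, mul_one]; exact h)]
  have h1 : ((x : ℝ) : ℂ) = (sgr x : ℂ) * (|(x : ℝ)| : ℝ) := by exact_mod_cast sgr_mul x
  have h2 : (x : ℂ) = ((x : ℝ) : ℂ) := by push_cast; rfl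
  have h3 : (sgr x : ℂ) ^ 2 = 1 := by exact_mod_cast sgr_sq x
  have h4 : ((|(x : ℝ)| : ℝ) : ℂ) ≠ 0 := by exact_mod_cast h0.ne'
  rw [h2, h1]
  push_cast
  push_cast at h4
  field_simp
  linear_combination (-θ) * h3

/-- **One window.** -/
theorem window (d : ℕ) (hd : 3 ≤ d) (κ : ℝ) (hκ : κ < 2 * d - 3) : ∃ M : ℕ,
    ∀ (H : ℕ) (f : ℤ[X]), f.natDegree = d → (f.map (Int.castRingHom ℚ)).Separable →
    (∀ i, |f.coeff i| ≤ H) → ∀ X : ℝ, (2 * (H : ℝ)) ^ M ≤ X → ∀ S : Finset ℤ,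
      (∀ x ∈ S, X < |(x : ℝ)| ∧ |(x : ℝ)| ≤ X ^ κ) →
      (∀ x ∈ S, ∀ y ∈ S, SameClass f x y) → S.card ≤ 2 ^ d := by
  obtain ⟨M, hM⟩ := numeric d hd κ hκ
  refine ⟨M, fun H f hfd hs hfH X hX S hS hcl => ?_⟩
  classical
  have hf : f ≠ 0 := by rintro rfl; simp at hfd; omega
  have hH : 1 ≤ H := by
    have h1 := hfH f.natDegree
    have h2 := Int.one_le_abs (leadingCoeff_ne_zero.mpr hf)
    have h3 : (1 : ℤ) ≤ H := h2.trans h1
    exact_mod_cast h3
  have hH1 : (1 : ℝ) ≤ H := by exact_mod_cast hH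
  obtain ⟨h6, hnum⟩ := hM H hH X hX
  have hdR : (3 : ℝ) ≤ d := by exact_mod_cast hd
  have hE := eqn_Rt hs hf H hfH
  have hcard : (Rt f).card = d := by rw [card_Rt hs, hfd]
  have hX1 : 1 < X := by nlinarith
  have hroot : ∀ θ ∈ Rt f, ‖θ‖ ≤ d * H := by
    intro θ hθ
    have := root_bound hH1 hE hθ
    rwa [hcard] at this
  have hbig : ∀ x ∈ S, ∀ θ ∈ Rt f, ‖θ‖ < |(x : ℝ)| := by
    intro x hx θ hθ
    have h1 := (hS x hx).1
    have h2 := hroot θ hθ
    nlinarith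
  have hSne : ∀ x ∈ S, (x : ℤ) ≠ 0 := by
    rintro x hx rfl
    have h1 := (hS 0 hx).1
    simp at h1
    linarith
  by_contra hcon
  push Not at hcon
  obtain ⟨x₀, hx₀⟩ : S.Nonempty := card_pos.mp ((Nat.zero_le _).trans_lt hcon)
  have hx₀' : f.eval x₀ ≠ 0 := by
    intro h0
    have h1 : (x₀ : ℂ) ∈ Rt f := by
      rw [mem_Rt hf]
      have : aeval ((x₀ : ℤ) : ℂ) f = ((f.eval x₀ : ℤ) : ℂ) := by
        rw [aeval_def]
        have := eval₂_at_intCast (Int.castRingHom ℂ) (p := f) x₀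
        simpa using this
      rw [this, h0]; simp
    have h2 := hbig x₀ hx₀ _ h1
    rw [Complex.norm_intCast] at h2
    exact lt_irrefl _ h2
  choose! b hb B hB using fun x hx => hcl x₀ hx₀ x hx
  obtain ⟨θs, hθs⟩ : (Rt f).Nonempty := card_pos.mp (by omega)
  set q : ℤ → ℂ → ℂ := fun x θ => aeval θ (B x) / (gx x₀ θ * gx x θ) with hq
  have hgx0 : ∀ x ∈ S, ∀ θ ∈ Rt f, gx x θ ≠ 0 := by
    intro x hx θ hθ h0
    have h1 := gx_sq (hbig x hx θ hθ)
    rw [h0] at h1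
    have h2 : (x : ℂ) = θ := by linear_combination -h1
    have h3 := hbig x hx θ hθ
    rw [← h2, Complex.norm_intCast] at h3
    exact lt_irrefl _ h3
  have hqsq : ∀ x ∈ S, ∀ θ ∈ Rt f, q x θ ^ 2 = b x * (x₀ * x) := by
    intro x hx θ hθ
    have h1 := SameClass.eval hf (hB x hx) hθ
    simp only [hq]
    rw [div_pow, h1, mul_pow, div_eq_iff (mul_ne_zero (pow_ne_zero _ (hgx0 x₀ hx₀ θ hθ))
      (pow_ne_zero _ (hgx0 x hx θ hθ))), ← gx_sq (hbig x hx θ hθ), ← gx_sq (hbig x₀ hx₀ θ hθ)]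
    ring
  set code : ℤ → Bool × Finset ℂ := fun x => (decide (0 < x),
    ((Rt f).erase θs).filter (fun θ => q x θ = q x θs)) with hcode
  obtain ⟨x, hx, y, hy, hxy, hxyc⟩ := exists_ne_map_eq_of_card_lt_of_maps_to
    (s := S) (t := (univ : Finset Bool) ×ˢ ((Rt f).erase θs).powerset) (f := code) (by
      rw [card_product, card_powerset, card_erase_of_mem hθs, hcard, card_univ, Fintype.card_bool,
        ← pow_succ', show d - 1 + 1 = d by omega]
      exact hcon) (by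
      intro x _
      simp only [hcode, coe_product, Set.mem_prod, mem_coe, mem_univ, true_and, mem_powerset]
      exact filter_subset _ _)
  -- the main argument
  have key : ∀ x ∈ S, ∀ y ∈ S, |(x : ℝ)| < |(y : ℝ)| → code x = code y → False := by
    intro x hx y hy hlt hc
    simp only [hcode, Prod.mk.injEq, decide_eq_decide] at hc
    obtain ⟨hsg, hfil⟩ := hc
    have hsgr : sgr y = sgr x := by
      rw [sgr, sgr]
      by_cases h : 0 < x
      · rw [if_pos h, if_pos (hsg.mp h)]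
      · rw [if_neg h, if_neg (fun h' => h (hsg.mpr h'))]
    have hprod : ∀ θ ∈ Rt f, q x θ * q y θ = q x θs * q y θs := by
      intro θ hθ
      by_cases he : θ = θs
      · rw [he]
      have hsx : q x θ ^ 2 = q x θs ^ 2 := by rw [hqsq x hx θ hθ, hqsq x hx θs hθs]
      have hsy : q y θ ^ 2 = q y θs ^ 2 := by rw [hqsq y hy θ hθ, hqsq y hy θs hθs]
      by_cases hmem : q x θ = q x θs
      · have h1 : θ ∈ ((Rt f).erase θs).filter (fun θ => q x θ = q x θs) :=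
          mem_filter.mpr ⟨mem_erase.mpr ⟨he, hθ⟩, hmem⟩
        rw [hfil] at h1
        rw [hmem, (mem_filter.mp h1).2]
      · have h1 : ¬ q y θ = q y θs := by
          intro h
          have h2 : θ ∈ ((Rt f).erase θs).filter (fun θ => q y θ = q y θs) :=
            mem_filter.mpr ⟨mem_erase.mpr ⟨he, hθ⟩, h⟩
          rw [← hfil] at h2
          exact hmem (mem_filter.mp h2).2
        have h3 : q x θ = -q x θs := (sq_eq_sq_iff_eq_or_eq_neg.mp hsx).resolve_left hmem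
        have h4 : q y θ = -q y θs := (sq_eq_sq_iff_eq_or_eq_neg.mp hsy).resolve_left h1
        rw [h3, h4]; ring
    set c : ℂ := q x θs * q y θs / x₀ with hcdef
    have hx₀C : (x₀ : ℂ) ≠ 0 := by exact_mod_cast hSne x₀ hx₀
    have hrat := rat_T hf hs (by omega) (B x * B y) x₀ hx₀'
      (fun θ => gam (1 / |(x : ℝ)|) (sgr x * θ) * gam (1 / |(y : ℝ)|) (sgr x * θ)) c
      (b x * b y * x * y) (by
        have h1 : (x : ℚ) ≠ 0 := by exact_mod_cast hSne x hx
        have h2 : (y : ℚ) ≠ 0 := by exact_mod_cast hSne y hy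
        exact mul_ne_zero (mul_ne_zero (mul_ne_zero (hb x hx) (hb y hy)) h1) h2) (by
        rw [hcdef, div_pow, mul_pow, hqsq x hx θs hθs, hqsq y hy θs hθs, div_eq_iff
          (pow_ne_zero _ hx₀C)]
        push_cast
        ring) (by
        intro θ hθ
        have h1 := hprod θ hθ
        have h2 : aeval θ (B x) = q x θ * (gx x₀ θ * gx x θ) := by
          simp only [hq]
          rw [div_mul_cancel₀ _ (mul_ne_zero (hgx0 x₀ hx₀ θ hθ) (hgx0 x hx θ hθ))]
        have h3 : aeval θ (B y) = q y θ * (gx x₀ θ * gx y θ) := by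
          simp only [hq]
          rw [div_mul_cancel₀ _ (mul_ne_zero (hgx0 x₀ hx₀ θ hθ) (hgx0 y hy θ hθ))]
        have h4 := gx_sq (hbig x₀ hx₀ θ hθ)
        rw [map_mul, h2, h3, ← h4]
        have h5 : gam (1 / |(y : ℝ)|) (sgr x * θ) = gx y θ := by rw [gx, hsgr]
        have h6 : gam (1 / |(x : ℝ)|) (sgr x * θ) = gx x θ := rfl
        rw [h5, h6]
        have h7 : c * x₀ = q x θs * q y θs := by rw [hcdef, div_mul_cancel₀ _ hx₀C]
        calc q x θ * (gx x₀ θ * gx x θ) * (q y θ * (gx x₀ θ * gx y θ))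
            = (q x θ * q y θ) * gx x₀ θ ^ 2 * (gx x θ * gx y θ) := by ring
          _ = (c * x₀) * gx x₀ θ ^ 2 * (gx x θ * gx y θ) := by rw [h1, h7]
          _ = _ := by ring)
    have ha1 : 1 < |(x : ℝ)| := hX1.trans (hS x hx).1
    refine contra hf hs (by omega) H hH hfH x y (sgr x) |(x : ℝ)| |(y : ℝ)| (sgr_sq x)
      (sgr_mul x) (by rw [← hsgr]; exact sgr_mul y) ha1 hlt ?_ ?_ hrat
    · rw [hfd, mul_one_div, div_le_one (by linarith)]
      exact h6.trans (hS x hx).1.le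
    · rw [hfd]
      exact hnum _ _ (hS x hx).1 hlt (hS y hy).2
  have hne : |(x : ℝ)| ≠ |(y : ℝ)| := by
    intro h
    have hsg : (0 < x ↔ 0 < y) := by
      have := hxyc
      simp only [hcode, Prod.mk.injEq, decide_eq_decide] at this
      exact this.1
    have h1 : |x| = |y| := by
      have : ((|x| : ℤ) : ℝ) = ((|y| : ℤ) : ℝ) := by push_cast; exact h
      exact_mod_cast this
    have hx0 := hSne x hx
    have hy0 := hSne y hy
    rcases abs_eq_abs.mp h1 with h2 | h2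
    · exact hxy h2
    · by_cases h3 : 0 < x
      · have := hsg.mp h3; omega
      · have h4 : ¬ 0 < y := fun h => h3 (hsg.mpr h)
        omega
  rcases lt_or_gt_of_ne hne with h | h
  · exact key x hx y hy h hxyc
  · exact key y hy x hx h hxyc.symm

/-- **Many windows.** -/
theorem windows (d : ℕ) (hd : 3 ≤ d) (κ : ℝ) (hκ1 : 1 ≤ κ) (hκ : κ < 2 * d - 3) : ∃ M : ℕ,
    ∀ (H : ℕ) (f : ℤ[X]), f.natDegree = d → (f.map (Int.castRingHom ℚ)).Separable →
    (∀ i, |f.coeff i| ≤ H) → ∀ X : ℝ, (2 * (H : ℝ)) ^ M ≤ X → ∀ (n : ℕ) (S : Finset ℤ),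
      (∀ x ∈ S, X < |(x : ℝ)| ∧ |(x : ℝ)| ≤ X ^ (κ ^ n)) →
      (∀ x ∈ S, ∀ y ∈ S, SameClass f x y) → S.card ≤ n * 2 ^ d := by
  obtain ⟨M, hM⟩ := window d hd κ hκ
  refine ⟨M, fun H f hfd hs hfH X hX n => ?_⟩
  classical
  have hf : f ≠ 0 := by rintro rfl; simp at hfd; omega
  have hH : 1 ≤ H := by
    have h1 := hfH f.natDegree
    have h2 := Int.one_le_abs (leadingCoeff_ne_zero.mpr hf)
    have h3 : (1 : ℤ) ≤ H := h2.trans h1
    exact_mod_cast h3
  have hH1 : (1 : ℝ) ≤ H := by exact_mod_cast hH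
  have hX1 : 1 ≤ X := (one_le_pow₀ (by linarith)).trans hX
  induction n with
  | zero =>
    intro S hS _
    rw [zero_mul, Nat.le_zero, card_eq_zero, eq_empty_iff_forall_notMem]
    intro x hx
    have h1 := hS x hx
    rw [pow_zero, Real.rpow_one] at h1
    linarith [h1.1, h1.2]
  | succ n ih =>
    intro S hS hcl
    have h1 := ih (S.filter fun x => |(x : ℝ)| ≤ X ^ (κ ^ n)) (fun x hx => by
      rw [mem_filter] at hx; exact ⟨(hS x hx.1).1, hx.2⟩)
      (fun x hx y hy => hcl x (mem_filter.mp hx).1 y (mem_filter.mp hy).1)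
    have h2 := hM H f hfd hs hfH (X ^ (κ ^ n))
      (hX.trans (by
        conv_lhs => rw [← Real.rpow_one X]
        exact Real.rpow_le_rpow_of_exponent_le hX1 (one_le_pow₀ hκ1)))
      (S.filter fun x => ¬ |(x : ℝ)| ≤ X ^ (κ ^ n)) (fun x hx => by
        rw [mem_filter, not_le] at hx
        refine ⟨hx.2, ?_⟩
        rw [← Real.rpow_mul (by linarith), ← pow_succ]
        exact (hS x hx.1).2)
      (fun x hx y hy => hcl x (mem_filter.mp hx).1 y (mem_filter.mp hy).1)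
    have h3 := card_filter_add_card_filter_not (s := S) (fun x : ℤ => |(x : ℝ)| ≤ X ^ (κ ^ n))
    calc S.card = _ := h3.symm
      _ ≤ n * 2 ^ d + 2 ^ d := add_le_add h1 h2
      _ = _ := by ring

end Pool.Agent.U133.GP
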