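import Pool.Agent.U133.GP.Ev
import Pool.Agent.U133.GP.Int

set_option autoImplicit false

/-!
# The divided difference of `√((1 - u z)(1 - v z))` at the roots
-/

namespace Pool.Agent.U133.GP

open Polynomial Finset

/-- the sum over the roots as a series -/
lemma sum_eq (R : Finset ℂ) {m p : ℝ} (hm : 0 ≤ m) (hp0 : 0 ≤ p) (hp : p ≤ m ^ 2) (σ : ℂ)
    (hσ : ‖σ‖ = 1) (h : ∀ θ ∈ R, 2 * m * ‖θ‖ < 1) :
    ∑ θ ∈ R, evs (Es m p) (σ * θ) / Wt R θ =
      ∑' k, (ec m p k : ℂ) * (σ ^ k * rr R k) := by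
  have h1 : ∀ θ ∈ R, evs (Es m p) (σ * θ) / Wt R θ =
      ∑' k, (ec m p k : ℂ) * (σ ^ k * (θ ^ k / Wt R θ)) := by
    intro θ _
    rw [evs, ← tsum_div_const]
    congr 1
    funext k
    rw [coeff_Es, mul_pow]
    ring
  rw [sum_congr rfl h1, ← Summable.tsum_finsetSum]
  · congr 1
    funext k
    rw [rr, mul_sum, mul_sum]
  · intro θ hθ
    have h2 := (abs_Es hm hp0 hp (z := σ * θ)
      (by rw [norm_mul, hσ, one_mul]; exact h θ hθ)).of_norm
    refine (h2.div_const (Wt R θ)).congr fun k => ?_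
    rw [coeff_Es, mul_pow]
    ring

/-- `T` is nonzero and small -/
lemma pair (R : Finset ℂ) {c : ℕ → ℂ} {H : ℝ} (hR : 3 ≤ R.card) (hH : 1 ≤ H) (hE : Eqn R c H)
    (σ : ℂ) (hσ : ‖σ‖ = 1) (u v : ℝ) (hv : 0 < v) (huv : v < u)
    (hu : 6 * R.card * H * u ≤ 1) :
    ∑ θ ∈ R, gam u (σ * θ) * gam v (σ * θ) / Wt R θ ≠ 0 ∧
      ‖∑ θ ∈ R, gam u (σ * θ) * gam v (σ * θ) / Wt R θ‖ ≤ 2 ^ R.card * u ^ (R.card - 1) := by
  have hu0 : 0 < u := hv.trans huv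
  have hd : (3 : ℝ) ≤ R.card := by exact_mod_cast hR
  set m := (u + v) / 2 with hm
  set p := u * v with hp
  have hm0 : 0 < m := by positivity
  have hp0 : 0 ≤ p := by positivity
  have hpm : p ≤ m ^ 2 := by rw [hp, hm]; nlinarith [sq_nonneg (u - v)]
  have hgap : (m ^ 2 - p) / 2 = (u - v) ^ 2 / 8 := by rw [hp, hm]; ring
  have hθ : ∀ θ ∈ R, ‖θ‖ ≤ R.card * H := fun θ h => root_bound hH hE h
  have hdH : (0 : ℝ) < R.card * H := by positivity
  have hmA : 2 * m * (R.card * H) ≤ 1 / 3 := by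
    have : 2 * m ≤ 2 * u := by rw [hm]; linarith
    nlinarith
  have hlt : ∀ θ ∈ R, 2 * m * ‖θ‖ < 1 := by
    intro θ h
    have := mul_le_mul_of_nonneg_left (hθ θ h) (by positivity : 0 ≤ 2 * m)
    linarith
  have hn : ∀ θ ∈ R, ‖σ * θ‖ = ‖θ‖ := fun θ _ => by rw [norm_mul, hσ, one_mul]
  have e1 : ∑ θ ∈ R, gam u (σ * θ) * gam v (σ * θ) / Wt R θ =
      ∑' k, (ec m p k : ℂ) * (σ ^ k * rr R k) := by
    rw [← sum_eq R hm0.le hp0 hpm σ hσ hlt]
    refine sum_congr rfl fun θ h => ?_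
    have h1 : u * ‖θ‖ < 1 := by
      have := hlt θ h
      have h2 : u * ‖θ‖ ≤ 2 * m * ‖θ‖ :=
        mul_le_mul_of_nonneg_right (by rw [hm]; linarith) (norm_nonneg _)
      linarith
    have h3 : v * ‖θ‖ < 1 := by
      have h2 : v * ‖θ‖ ≤ u * ‖θ‖ := mul_le_mul_of_nonneg_right huv.le (norm_nonneg _)
      linarith
    rw [gam_mul hu0.le hv.le (by rwa [hn θ h]) (by rwa [hn θ h])]
  obtain ⟨n, hnd⟩ : ∃ n, R.card = n + 3 := ⟨R.card - 3, by omega⟩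
  have hsize := sum_size hm0.le hp0 hpm n (fun k => σ ^ k * rr R k) (R.card * H) hdH.le
    (fun k hk => by rw [rr_lt (by omega), mul_zero])
    (by rw [rr_eq (by omega), mul_one, norm_pow, hσ, one_pow])
    (fun l => by
      rw [norm_mul, norm_pow, hσ, one_pow, one_mul]
      have := rr_bound (by omega) hH hE l
      rwa [show R.card - 1 + l = n + 2 + l by omega] at this)
    hmA
  rw [e1]
  constructor
  · intro h0
    rw [h0, norm_zero] at hsize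
    have h1 := ec_ge hm0.le hp0 hpm n
    rw [hgap] at h1
    have h2 : 0 < m ^ n * ((u - v) ^ 2 / 8) := by
      have : 0 < (u - v) ^ 2 := by
        have : 0 < u - v := by linarith
        positivity
      positivity
    linarith [hsize.1]
  · refine hsize.2.trans ?_
    have h1 := ec_upper hm0.le hp0 hpm n
    rw [hgap] at h1
    have h2 : (2 * m) ^ n ≤ (2 * u) ^ n :=
      pow_le_pow_left₀ (by positivity) (by rw [hm]; linarith) n
    have h3 : (u - v) ^ 2 / 8 ≤ u ^ 2 / 8 := by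
      have : (u - v) ^ 2 ≤ u ^ 2 := by nlinarith
      linarith
    have h4 : (2 * m) ^ n * ((u - v) ^ 2 / 8) ≤ (2 * u) ^ n * (u ^ 2 / 8) :=
      mul_le_mul h2 h3 (by positivity) (by positivity)
    calc 3 / 2 * |ec m p (n + 2)| ≤ 3 / 2 * ((2 * u) ^ n * (u ^ 2 / 8)) := by linarith
      _ = 3 / 16 * (2 ^ n * u ^ (n + 2)) := by rw [mul_pow]; ring
      _ ≤ 2 ^ 3 * (2 ^ n * u ^ (n + 2)) := by
          have : 0 ≤ 2 ^ n * u ^ (n + 2) := by positivity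
          nlinarith
      _ = 2 ^ R.card * u ^ (R.card - 1) := by
          rw [hnd, show n + 3 - 1 = n + 2 by omega]; ring

/-- the numerical part -/
lemma numeric (d : ℕ) (hd : 3 ≤ d) (κ : ℝ) (hκ : κ < 2 * d - 3) : ∃ M : ℕ, ∀ (H : ℕ), 1 ≤ H →
    ∀ X : ℝ, (2 * (H : ℝ)) ^ M ≤ X → 6 * d * H ≤ X ∧ ∀ a b : ℝ, X < a → a < b → b ≤ X ^ κ →
      ∀ D l t : ℝ, |D| ≤ ((2 * d).factorial : ℝ) * ((d : ℝ) * (H + 1)) ^ (2 * d) → |l| ≤ H →
        0 ≤ t → t ≤ 2 ^ d * (1 / a) ^ (d - 1) →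
        (|D| * |l| ^ d * (Real.sqrt (a * b) * t)) ^ 2 < 1 := by
  set K : ℕ := (2 * d).factorial * d ^ (2 * d) with hK
  set M₁ : ℕ := K + 3 * d with hM₁
  set δ : ℝ := 2 * d - 3 - κ with hδ
  have hδ0 : 0 < δ := by rw [hδ]; linarith
  obtain ⟨M₂, hM₂⟩ := exists_nat_ge (((2 * M₁ + 2 * d : ℕ) : ℝ) / δ)
  refine ⟨M₂ + 3 * d + 1, fun H hH X hX => ?_⟩
  have hH1 : (1 : ℝ) ≤ H := by exact_mod_cast hH
  have h2H : (2 : ℝ) ≤ 2 * H := by linarith
  have h2H1 : (1 : ℝ) ≤ 2 * H := by linarith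
  have hdR : (3 : ℝ) ≤ d := by exact_mod_cast hd
  have hX1 : 6 * d * H ≤ X := by
    refine le_trans ?_ hX
    have h1 : (2 : ℝ) ^ (3 * d) ≤ (2 * (H : ℝ)) ^ (M₂ + 3 * d) := by
      calc (2 : ℝ) ^ (3 * d) ≤ (2 * (H : ℝ)) ^ (3 * d) := pow_le_pow_left₀ (by norm_num) h2H _
        _ ≤ _ := pow_le_pow_right₀ h2H1 (by omega)
    have h2 : ((3 * d : ℕ) : ℝ) ≤ (2 : ℝ) ^ (3 * d) := by
      have := (Nat.lt_two_pow_self (n := 3 * d)).le
      exact_mod_cast this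
    rw [pow_succ]
    push_cast at h2
    nlinarith
  have hX0 : 0 < X := by
    refine lt_of_lt_of_le ?_ hX1
    positivity
  have hXge1 : 1 ≤ X := by nlinarith
  refine ⟨hX1, ?_⟩
  intro a b ha hab hb D l t hD hl ht0 ht
  have ha0 : 0 < a := hX0.trans ha
  have hb0 : 0 < b := ha0.trans hab
  have hA : |D| * |l| ^ d ≤ (2 * (H : ℝ)) ^ M₁ := by
    have h1 : (K : ℝ) ≤ (2 * (H : ℝ)) ^ K := by
      have h2 : (K : ℝ) ≤ (2 : ℝ) ^ K := by
        have := (Nat.lt_two_pow_self (n := K)).le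
        exact_mod_cast this
      exact h2.trans (pow_le_pow_left₀ (by norm_num) h2H _)
    have h3 : ((d : ℝ) * (H + 1)) ^ (2 * d) ≤ (d : ℝ) ^ (2 * d) * (2 * (H : ℝ)) ^ (2 * d) := by
      rw [← mul_pow]
      exact pow_le_pow_left₀ (by positivity) (by nlinarith) _
    have h4 : |l| ^ d ≤ (2 * (H : ℝ)) ^ d :=
      pow_le_pow_left₀ (abs_nonneg _) (by linarith) _
    calc |D| * |l| ^ d ≤ (((2 * d).factorial : ℝ) * ((d : ℝ) ^ (2 * d) *
          (2 * (H : ℝ)) ^ (2 * d))) * (2 * (H : ℝ)) ^ d := by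
          refine mul_le_mul (hD.trans ?_) h4 (by positivity) (by positivity)
          exact mul_le_mul_of_nonneg_left h3 (by positivity)
      _ = (K : ℝ) * (2 * (H : ℝ)) ^ (3 * d) := by
          rw [hK]; push_cast
          rw [show 3 * d = 2 * d + d by ring, pow_add (2 * (H : ℝ))]
          ring
      _ ≤ (2 * (H : ℝ)) ^ K * (2 * (H : ℝ)) ^ (3 * d) :=
          mul_le_mul_of_nonneg_right h1 (by positivity)
      _ = _ := by rw [← pow_add]
  have hpow : (2 * (H : ℝ)) ^ (2 * M₁ + 2 * d) ≤ X ^ δ := by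
    have h1 : (2 * (H : ℝ)) ^ M₂ ≤ X :=
      (pow_le_pow_right₀ h2H1 (by omega)).trans hX
    have h2 : ((2 * (H : ℝ)) ^ M₂) ^ δ ≤ X ^ δ :=
      Real.rpow_le_rpow (by positivity) h1 hδ0.le
    refine le_trans ?_ h2
    rw [← Real.rpow_natCast, ← Real.rpow_natCast, ← Real.rpow_mul (by positivity)]
    apply Real.rpow_le_rpow_of_exponent_le h2H1
    rw [div_le_iff₀ hδ0] at hM₂
    exact hM₂
  have hba : b < X ^ (-δ) * a ^ (2 * d - 3) := by
    have h1 : X ^ κ = X ^ (-δ) * X ^ (2 * d - 3) := by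
      rw [← Real.rpow_natCast X (2 * d - 3), ← Real.rpow_add hX0]
      congr 1
      rw [hδ, Nat.cast_sub (by omega)]
      push_cast
      ring
    have h2 : X ^ (2 * d - 3) < a ^ (2 * d - 3) := pow_lt_pow_left₀ ha hX0.le (by omega)
    have h3 : 0 < X ^ (-δ) := Real.rpow_pos_of_pos hX0 _
    calc b ≤ X ^ κ := hb
      _ = X ^ (-δ) * X ^ (2 * d - 3) := h1
      _ < _ := mul_lt_mul_of_pos_left h2 h3
  have hsq : Real.sqrt (a * b) ^ 2 = a * b := Real.sq_sqrt (by positivity)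
  have e : (|D| * |l| ^ d * (Real.sqrt (a * b) * t)) ^ 2 = (|D| * |l| ^ d) ^ 2 * (a * b) * t ^ 2 := by
    rw [mul_pow, mul_pow (Real.sqrt (a * b)), hsq]; ring
  rw [e]
  have h5 : (|D| * |l| ^ d) ^ 2 ≤ ((2 * (H : ℝ)) ^ M₁) ^ 2 :=
    pow_le_pow_left₀ (by positivity) hA 2
  have h6 : t ^ 2 ≤ (2 ^ d * (1 / a) ^ (d - 1)) ^ 2 := pow_le_pow_left₀ ht0 ht 2
  have h7 : (2 : ℝ) ^ d ≤ (2 * (H : ℝ)) ^ d := pow_le_pow_left₀ (by norm_num) h2H _
  have hXd : 0 < X ^ δ := Real.rpow_pos_of_pos hX0 _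
  have hXn : X ^ (-δ) * X ^ δ = 1 := by
    rw [← Real.rpow_add hX0]; simp
  calc (|D| * |l| ^ d) ^ 2 * (a * b) * t ^ 2
      ≤ ((2 * (H : ℝ)) ^ M₁) ^ 2 * (a * b) * (2 ^ d * (1 / a) ^ (d - 1)) ^ 2 :=
        mul_le_mul (mul_le_mul_of_nonneg_right h5 (by positivity)) h6 (by positivity)
          (by positivity)
    _ ≤ ((2 * (H : ℝ)) ^ M₁) ^ 2 * (a * b) * ((2 * (H : ℝ)) ^ d * (1 / a) ^ (d - 1)) ^ 2 := by
        refine mul_le_mul_of_nonneg_left ?_ (by positivity)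
        refine pow_le_pow_left₀ (by positivity) ?_ 2
        exact mul_le_mul_of_nonneg_right h7 (by positivity)
    _ = (2 * (H : ℝ)) ^ (2 * M₁ + 2 * d) * (b * (1 / a) ^ (2 * d - 3)) := by
        have e1 : a * ((1 / a) ^ (d - 1)) ^ 2 = (1 / a) ^ (2 * d - 3) := by
          have e2 : (1 / a) ^ (2 * d - 2) = (1 / a) ^ (2 * d - 3) * (1 / a) := by
            rw [← pow_succ]; congr 1; omega
          rw [← pow_mul, show (d - 1) * 2 = 2 * d - 2 by omega, e2]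
          field_simp
        have e4 : (2 * (H : ℝ)) ^ (2 * M₁ + 2 * d) =
            ((2 * (H : ℝ)) ^ M₁) ^ 2 * ((2 * (H : ℝ)) ^ d) ^ 2 := by
          rw [← pow_mul, ← pow_mul, ← pow_add]; congr 1; ring
        rw [← e1, e4]
        ring
    _ ≤ X ^ δ * (b * (1 / a) ^ (2 * d - 3)) :=
        mul_le_mul_of_nonneg_right hpow (by positivity)
    _ < X ^ δ * (X ^ (-δ) * a ^ (2 * d - 3) * (1 / a) ^ (2 * d - 3)) := by
        refine mul_lt_mul_of_pos_left ?_ hXd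
        exact mul_lt_mul_of_pos_right hba (by positivity)
    _ = 1 := by
        have e3 : a ^ (2 * d - 3) * (1 / a) ^ (2 * d - 3) = 1 := by
          rw [← mul_pow, mul_one_div_cancel ha0.ne', one_pow]
        calc X ^ δ * (X ^ (-δ) * a ^ (2 * d - 3) * (1 / a) ^ (2 * d - 3))
            = (X ^ (-δ) * X ^ δ) * (a ^ (2 * d - 3) * (1 / a) ^ (2 * d - 3)) := by ring
          _ = 1 := by rw [hXn, e3, one_mul]

end Pool.Agent.U133.GP
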