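import Mathlib

set_option autoImplicit false

/-!
# The sums `∑ θ ^ k / ∏ (θ - θ')` over the roots of a polynomial
-/

namespace Pool.Agent.U133.GP

open Polynomial Finset

/-- the product of the differences -/
noncomputable def Wt (R : Finset ℂ) (θ : ℂ) : ℂ := ∏ η ∈ R.erase θ, (θ - η)

lemma Wt_ne {R : Finset ℂ} (θ : ℂ) : Wt R θ ≠ 0 := by
  rw [Wt, prod_ne_zero_iff]
  intro η hη h
  exact (mem_erase.mp hη).1 (sub_eq_zero.mp h).symm

/-- the sums -/
noncomputable def rr (R : Finset ℂ) (k : ℕ) : ℂ := ∑ θ ∈ R, θ ^ k / Wt R θ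

lemma rr_lt {R : Finset ℂ} {k : ℕ} (hk : k + 1 < R.card) : rr R k = 0 := by
  have h := Lagrange.coeff_eq_sum (s := R) (v := id) (Set.injOn_id _) (P := (X : ℂ[X]) ^ k) (by
    rw [degree_X_pow]; exact_mod_cast (by omega : k < R.card))
  rw [coeff_X_pow, if_neg (by omega)] at h
  rw [rr]
  simp only [eval_pow, eval_X, id] at h
  exact h.symm

lemma rr_eq {R : Finset ℂ} {k : ℕ} (hk : k + 1 = R.card) : rr R k = 1 := by
  have h := Lagrange.coeff_eq_sum (s := R) (v := id) (Set.injOn_id _) (P := (X : ℂ[X]) ^ k) (by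
    rw [degree_X_pow]; exact_mod_cast (by omega : k < R.card))
  rw [coeff_X_pow, if_pos (by omega)] at h
  rw [rr]
  simp only [eval_pow, eval_X, id] at h
  exact h.symm

/-- the leading coefficient from the values -/
lemma coeff_eq {R : Finset ℂ} (P : ℂ[X]) (hP : P.degree < R.card) :
    P.coeff (R.card - 1) = ∑ θ ∈ R, P.eval θ / Wt R θ := by
  have h := Lagrange.coeff_eq_sum (s := R) (v := id) (Set.injOn_id _) hP
  simpa [Wt] using h

/-- the elements of `R` satisfy a monic equation of degree `d = |R|` with coefficients of absolute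
value at most `H` -/
def Eqn (R : Finset ℂ) (c : ℕ → ℂ) (H : ℝ) : Prop :=
  (∀ θ ∈ R, θ ^ R.card = -∑ j ∈ range R.card, c j * θ ^ j) ∧ ∀ j, ‖c j‖ ≤ H

lemma rr_rec {R : Finset ℂ} {c : ℕ → ℂ} {H : ℝ} (h : Eqn R c H) (k : ℕ) :
    rr R (k + R.card) = -∑ j ∈ range R.card, c j * rr R (k + j) := by
  have h1 : ∀ θ ∈ R, θ ^ (k + R.card) / Wt R θ =
      -∑ j ∈ range R.card, c j * (θ ^ (k + j) / Wt R θ) := by
    intro θ hθ
    rw [pow_add, h.1 θ hθ, mul_neg, neg_div, mul_sum, sum_div]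
    congr 1
    refine sum_congr rfl fun j _ => ?_
    rw [pow_add]; ring
  rw [rr, sum_congr rfl h1, sum_neg_distrib, sum_comm]
  congr 1
  refine sum_congr rfl fun j _ => ?_
  rw [rr, mul_sum]

lemma rr_bound {R : Finset ℂ} {c : ℕ → ℂ} {H : ℝ} (hR : 1 ≤ R.card) (hH : 1 ≤ H)
    (h : Eqn R c H) (l : ℕ) : ‖rr R (R.card - 1 + l)‖ ≤ (R.card * H) ^ l := by
  have hd : (1 : ℝ) ≤ R.card := by exact_mod_cast hR
  have hdH : 1 ≤ (R.card : ℝ) * H := by nlinarith
  induction l using Nat.strong_induction_on with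
  | _ l ih =>
    rcases Nat.eq_zero_or_pos l with rfl | hl
    · rw [add_zero, rr_eq (by omega)]; simp
    · have e : R.card - 1 + l = (l - 1) + R.card := by omega
      rw [e, rr_rec h, norm_neg]
      have hb : ∀ j ∈ range R.card, ‖c j * rr R (l - 1 + j)‖ ≤ H * (R.card * H) ^ (l - 1) := by
        intro j hj
        rw [mem_range] at hj
        rw [norm_mul]
        apply mul_le_mul (h.2 j) _ (norm_nonneg _) (by linarith)
        rcases Nat.lt_or_ge (l - 1 + j + 1) R.card with h1 | h1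
        · rw [rr_lt h1, norm_zero]; positivity
        · have e2 : l - 1 + j = R.card - 1 + (l - 1 + j - (R.card - 1)) := by omega
          rw [e2]
          refine (ih _ (by omega)).trans ?_
          exact pow_le_pow_right₀ hdH (by omega)
      calc ‖∑ j ∈ range R.card, c j * rr R (l - 1 + j)‖
          ≤ ∑ j ∈ range R.card, ‖c j * rr R (l - 1 + j)‖ := norm_sum_le _ _
        _ ≤ ∑ _j ∈ range R.card, H * (R.card * H) ^ (l - 1) := sum_le_sum hb
        _ = (R.card * H) * (R.card * H) ^ (l - 1) := by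
            rw [sum_const, card_range, nsmul_eq_mul]; ring
        _ = (R.card * H) ^ l := by
            rw [← pow_succ']; congr 1; omega

lemma root_bound {R : Finset ℂ} {c : ℕ → ℂ} {H : ℝ} (hH : 1 ≤ H)
    (h : Eqn R c H) {θ : ℂ} (hθ : θ ∈ R) : ‖θ‖ ≤ R.card * H := by
  have hR : 1 ≤ R.card := card_pos.mpr ⟨θ, hθ⟩
  have hd : (1 : ℝ) ≤ R.card := by exact_mod_cast hR
  by_contra hcon
  push Not at hcon
  have h1 : 1 < ‖θ‖ := by nlinarith
  have h2 : ‖θ‖ ^ R.card ≤ R.card * H * ‖θ‖ ^ (R.card - 1) := by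
    rw [← norm_pow, h.1 θ hθ, norm_neg]
    have hb : ∀ j ∈ range R.card, ‖c j * θ ^ j‖ ≤ H * ‖θ‖ ^ (R.card - 1) := by
      intro j hj
      rw [mem_range] at hj
      rw [norm_mul, norm_pow]
      exact mul_le_mul (h.2 j) (pow_le_pow_right₀ h1.le (by omega)) (by positivity) (by linarith)
    calc ‖∑ j ∈ range R.card, c j * θ ^ j‖ ≤ ∑ j ∈ range R.card, ‖c j * θ ^ j‖ := norm_sum_le _ _
      _ ≤ ∑ _j ∈ range R.card, H * ‖θ‖ ^ (R.card - 1) := sum_le_sum hb
      _ = _ := by rw [sum_const, card_range, nsmul_eq_mul]; ring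
  have h3 : ‖θ‖ ^ R.card = ‖θ‖ * ‖θ‖ ^ (R.card - 1) := by
    rw [← pow_succ']; congr 1; omega
  rw [h3] at h2
  have h4 := le_of_mul_le_mul_right h2 (by positivity)
  linarith

end Pool.Agent.U133.GP
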