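import Mathlib

set_option autoImplicit false

/-!
# The square root of `1 - 2 m X + p X²`: coefficients
-/

namespace Pool.Agent.U133.GP

open PowerSeries

/-- the coefficients of `√(1 - 2 m X + p X²)` -/
noncomputable def ec (m p : ℝ) : ℕ → ℝ
  | 0 => 1
  | 1 => -m
  | (k + 2) => ((2 * (k : ℝ) + 1) * m * ec m p (k + 1) - ((k : ℝ) - 1) * p * ec m p k) / (k + 2)

lemma ec_zero (m p : ℝ) : ec m p 0 = 1 := by rw [ec]

lemma ec_one (m p : ℝ) : ec m p 1 = -m := by rw [ec]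

lemma ec_succ (m p : ℝ) (k : ℕ) : ((k : ℝ) + 2) * ec m p (k + 2) =
    (2 * (k : ℝ) + 1) * m * ec m p (k + 1) - ((k : ℝ) - 1) * p * ec m p k := by
  have h : ((k : ℝ) + 2) ≠ 0 := by positivity
  rw [ec]
  field_simp

/-- the series -/
noncomputable def Es (m p : ℝ) : ℝ⟦X⟧ := PowerSeries.mk (ec m p)

/-- the polynomial `1 - 2 m X + p X²` -/
noncomputable def Qs (m p : ℝ) : ℝ⟦X⟧ := 1 - C (2 * m) * X + C p * (X * X)

lemma coeff_Es (m p : ℝ) (k : ℕ) : coeff k (Es m p) = ec m p k := by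
  rw [Es, coeff_mk]

lemma dQs (m p : ℝ) : d⁄dX ℝ (Qs m p) = 2 * (C p * X - C m) := by
  rw [Qs]
  simp only [map_add, map_sub, Derivation.leibniz, smul_eq_mul, derivative_C, derivative_X]
  have h1 : d⁄dX ℝ (1 : ℝ⟦X⟧) = 0 := by
    rw [← map_one (C (R := ℝ)), derivative_C]
  rw [h1, map_mul]
  have h2 : (C (2 : ℝ) : ℝ⟦X⟧) = 2 := by
    rw [show (2 : ℝ) = ((2 : ℕ) : ℝ) by norm_num, map_natCast]; norm_num
  rw [h2]
  ring

lemma dEs (m p : ℝ) : d⁄dX ℝ (Es m p) * Qs m p = (C p * X - C m) * Es m p := by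
  have hL : d⁄dX ℝ (Es m p) * Qs m p = d⁄dX ℝ (Es m p) - C (2 * m) * (d⁄dX ℝ (Es m p) * X) +
      C p * (d⁄dX ℝ (Es m p) * X * X) := by
    rw [Qs]; ring
  have hR : (C p * X - C m) * Es m p = C p * (Es m p * X) - C m * Es m p := by ring
  rw [hL, hR]
  ext n
  rw [map_add, map_sub, map_sub, coeff_C_mul, coeff_C_mul, coeff_C_mul, coeff_C_mul]
  rcases n with _ | _ | n
  · rw [coeff_zero_mul_X, coeff_zero_mul_X, coeff_zero_mul_X, coeff_derivative, coeff_Es, coeff_Es,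
      ec_zero, ec_one]
    push_cast; ring
  · rw [coeff_succ_mul_X, coeff_succ_mul_X, coeff_zero_mul_X, coeff_succ_mul_X, coeff_derivative,
      coeff_derivative, coeff_Es, coeff_Es, coeff_Es]
    have h := ec_succ m p 0
    rw [ec_zero, zero_add] at h
    rw [ec_one] at h ⊢
    rw [ec_zero]
    push_cast at h ⊢
    norm_num at h ⊢
    linarith
  · rw [coeff_succ_mul_X, coeff_succ_mul_X, coeff_succ_mul_X, coeff_succ_mul_X, coeff_derivative,
      coeff_derivative, coeff_derivative, coeff_Es, coeff_Es, coeff_Es]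
    have h := ec_succ m p (n + 1)
    push_cast at h ⊢
    have e : n + 1 + 1 + 1 = n + 1 + 2 := by ring
    rw [e]
    linarith

/-- uniqueness for the differential equation -/
lemma uniq {G Q : ℝ⟦X⟧} (hQ : constantCoeff Q ≠ 0) (hG : constantCoeff G = 0)
    (h : d⁄dX ℝ G * Q = G * d⁄dX ℝ Q) : G = 0 := by
  have hQQ : Q * Q⁻¹ = 1 := PowerSeries.mul_inv_cancel _ hQ
  have h1 : d⁄dX ℝ (G * Q⁻¹) = d⁄dX ℝ (0 : ℝ⟦X⟧) := by
    rw [map_zero, Derivation.leibniz, derivative_inv', smul_eq_mul, smul_eq_mul]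
    have h2 : d⁄dX ℝ G = G * d⁄dX ℝ Q * Q⁻¹ := by
      rw [← h, mul_assoc, hQQ, mul_one]
    rw [h2]
    ring
  have h2 : G * Q⁻¹ = 0 := derivative.ext h1 (by rw [map_mul, hG, zero_mul, map_zero])
  calc G = G * (Q * Q⁻¹) := by rw [hQQ, mul_one]
    _ = (G * Q⁻¹) * Q := by ring
    _ = 0 := by rw [h2, zero_mul]

lemma constantCoeff_Es (m p : ℝ) : constantCoeff (Es m p) = 1 := by
  rw [← coeff_zero_eq_constantCoeff_apply, coeff_Es, ec_zero]

lemma constantCoeff_Qs (m p : ℝ) : constantCoeff (Qs m p) = 1 := by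
  rw [Qs]; simp

lemma Es_sq (m p : ℝ) : Es m p ^ 2 = Qs m p := by
  rw [← sub_eq_zero]
  apply uniq (Q := Qs m p)
  · rw [constantCoeff_Qs]; norm_num
  · rw [map_sub, map_pow, constantCoeff_Es, constantCoeff_Qs]; norm_num
  · rw [map_sub, sub_mul, sub_mul, derivative_pow, dQs]
    have h := dEs m p
    push_cast
    rw [pow_one]
    calc 2 * Es m p * d⁄dX ℝ (Es m p) * Qs m p - 2 * (C p * X - C m) * Qs m p
        = 2 * Es m p * (d⁄dX ℝ (Es m p) * Qs m p) - 2 * (C p * X - C m) * Qs m p := by ring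
      _ = _ := by rw [h]; ring

/-- the factorization -/
lemma Es_mul (u v : ℝ) : Es ((u + v) / 2) (u * v) = Es (u / 2) 0 * Es (v / 2) 0 := by
  have h : Es ((u + v) / 2) (u * v) ^ 2 = (Es (u / 2) 0 * Es (v / 2) 0) ^ 2 := by
    rw [mul_pow, Es_sq, Es_sq, Es_sq, Qs, Qs, Qs]
    have e1 : (2 : ℝ) * ((u + v) / 2) = u + v := by ring
    have e2 : (2 : ℝ) * (u / 2) = u := by ring
    have e3 : (2 : ℝ) * (v / 2) = v := by ring
    rw [e1, e2, e3, map_add, map_mul, map_zero]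
    ring
  rcases sq_eq_sq_iff_eq_or_eq_neg.mp h with h | h
  · exact h
  · exfalso
    have h1 := congrArg constantCoeff h
    rw [constantCoeff_Es, map_neg, map_mul, constantCoeff_Es, constantCoeff_Es] at h1
    norm_num at h1

/-! ### bounds -/

lemma ec_two (m p : ℝ) : -ec m p 2 = (m ^ 2 - p) / 2 := by
  have h := ec_succ m p 0
  rw [ec_zero, zero_add, ec_one] at h
  push_cast at h
  linarith

lemma ec_bounds {m p : ℝ} (hm : 0 ≤ m) (hp0 : 0 ≤ p) (hp : p ≤ m ^ 2) (k : ℕ) :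
    0 ≤ -ec m p (k + 2) ∧ m * (-ec m p (k + 2)) ≤ -ec m p (k + 3) ∧
      -ec m p (k + 3) ≤ 2 * m * (-ec m p (k + 2)) := by
  induction k with
  | zero =>
    have h2 := ec_two m p
    have h3 := ec_succ m p 1
    push_cast at h3
    have h4 : -ec m p 3 = m * (-ec m p 2) := by linarith
    have h5 : 0 ≤ -ec m p 2 := by rw [h2]; linarith
    refine ⟨h5, h4.symm.le, ?_⟩
    show -ec m p 3 ≤ 2 * m * (-ec m p 2)
    rw [h4]
    nlinarith
  | succ k ih =>
    obtain ⟨h1, h2, h3⟩ := ih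
    have e1 : k + 1 + 2 = k + 3 := by ring
    have e2 : k + 1 + 3 = k + 4 := by ring
    rw [e1, e2]
    have h4 := ec_succ m p (k + 2)
    push_cast at h4
    have e3 : k + 2 + 2 = k + 4 := by ring
    have e4 : k + 2 + 1 = k + 3 := by ring
    rw [e3, e4] at h4
    have hk : (0 : ℝ) ≤ k := Nat.cast_nonneg k
    set g2 := -ec m p (k + 2) with hg2
    set g3 := -ec m p (k + 3) with hg3
    set g4 := -ec m p (k + 4) with hg4
    have h5 : ((k : ℝ) + 4) * g4 = (2 * (k : ℝ) + 5) * m * g3 - ((k : ℝ) + 1) * p * g2 := by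
      rw [hg2, hg3, hg4]; linarith
    have h6 : 0 ≤ g3 := le_trans (mul_nonneg hm h1) h2
    have h7 : p * g2 ≤ m * g3 := by
      calc p * g2 ≤ m ^ 2 * g2 := mul_le_mul_of_nonneg_right hp h1
        _ = m * (m * g2) := by ring
        _ ≤ m * g3 := mul_le_mul_of_nonneg_left h2 hm
    have hk4 : (0 : ℝ) < (k : ℝ) + 4 := by linarith
    refine ⟨h6, ?_, ?_⟩
    · apply le_of_mul_le_mul_left _ hk4
      rw [h5]
      have h8 : ((k : ℝ) + 1) * (p * g2) ≤ ((k : ℝ) + 1) * (m * g3) :=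
        mul_le_mul_of_nonneg_left h7 (by linarith)
      nlinarith
    · apply le_of_mul_le_mul_left _ hk4
      rw [h5]
      have h8 : 0 ≤ ((k : ℝ) + 1) * p * g2 := by positivity
      have h9 : 0 ≤ m * g3 := mul_nonneg hm h6
      nlinarith

lemma ec_le {m p : ℝ} (hm : 0 ≤ m) (hp0 : 0 ≤ p) (hp : p ≤ m ^ 2) (k l : ℕ) :
    |ec m p (k + 2 + l)| ≤ (2 * m) ^ l * |ec m p (k + 2)| := by
  induction l with
  | zero => simp
  | succ l ih =>
    have h := ec_bounds hm hp0 hp (k + l)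
    have e1 : k + 2 + (l + 1) = k + l + 3 := by ring
    have e2 : k + 2 + l = k + l + 2 := by ring
    have h0 : ec m p (k + l + 2) ≤ 0 := by linarith [h.1]
    have h0' : ec m p (k + l + 3) ≤ 0 := by
      have := mul_nonneg hm h.1
      linarith [h.2.1]
    rw [e1, abs_of_nonpos h0', pow_succ]
    rw [e2, abs_of_nonpos h0] at ih
    calc -ec m p (k + l + 3) ≤ 2 * m * (-ec m p (k + l + 2)) := h.2.2
      _ ≤ 2 * m * ((2 * m) ^ l * |ec m p (k + 2)|) := by gcongr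
      _ = _ := by ring

lemma ec_ge {m p : ℝ} (hm : 0 ≤ m) (hp0 : 0 ≤ p) (hp : p ≤ m ^ 2) (k : ℕ) :
    m ^ k * ((m ^ 2 - p) / 2) ≤ |ec m p (k + 2)| := by
  induction k with
  | zero =>
    rw [← ec_two]
    simpa using neg_le_abs (ec m p 2)
  | succ k ih =>
    have h := ec_bounds hm hp0 hp k
    have h0 : ec m p (k + 2) ≤ 0 := by linarith [h.1]
    have e1 : k + 1 + 2 = k + 3 := by ring
    rw [abs_of_nonpos h0] at ih
    rw [e1]
    calc m ^ (k + 1) * ((m ^ 2 - p) / 2) = m * (m ^ k * ((m ^ 2 - p) / 2)) := by ring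
      _ ≤ m * (-ec m p (k + 2)) := mul_le_mul_of_nonneg_left ih hm
      _ ≤ -ec m p (k + 3) := h.2.1
      _ ≤ |ec m p (k + 3)| := neg_le_abs _

lemma ec_upper {m p : ℝ} (hm : 0 ≤ m) (hp0 : 0 ≤ p) (hp : p ≤ m ^ 2) (k : ℕ) :
    |ec m p (k + 2)| ≤ (2 * m) ^ k * ((m ^ 2 - p) / 2) := by
  have h := ec_le hm hp0 hp 0 k
  have h2 : |ec m p (0 + 2)| = (m ^ 2 - p) / 2 := by
    have h3 := ec_bounds hm hp0 hp 0
    rw [abs_of_nonpos (by linarith [h3.1]), zero_add, ec_two]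
  rw [h2] at h
  rwa [show 0 + 2 + k = k + 2 by ring] at h

end Pool.Agent.U133.GP
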